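import Pool.Agent.U195.CI.Core
import Pool.Agent.H507_U.Cat

set_option autoImplicit false

/-!
# The ideals of null sets and of meagre sets
-/

namespace Pool.Agent.U195.CI

open Set Function MeasureTheory Filter Topology Pool.Agent.TH735.QM Pool.Agent.R158.MM
open scoped ENNReal

theorem null_sigma {Y : Type} [MeasurableSpace Y] (μ : Measure Y) :
    IsSigmaIdeal {A : Set Y | μ A = 0} where
  empty := measure_empty
  mono := fun _ _ h hB => measure_mono_null h hB
  iUnion := fun _ hA => measure_iUnion_null hA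

theorem null_ccc {Y : Type} [MeasurableSpace Y] (μ : Measure Y) [SFinite μ] :
    CountableChains {A : Set Y | μ A = 0} := by
  intro 𝒜 h𝒜 hd
  have h1 := Measure.countable_meas_pos_of_disjoint_iUnion (μ := μ)
    (As := fun A : 𝒜 => (A : Set Y)) (fun A => (h𝒜 A A.2).1) (by
      intro A B hAB
      exact hd A.2 B.2 (fun h => hAB (Subtype.ext h)))
  have h2 : {A : 𝒜 | 0 < μ (A : Set Y)} = univ := by
    ext A
    simp only [mem_ofPred_eq, mem_univ, iff_true]
    exact pos_iff_ne_zero.2 (h𝒜 A A.2).2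
  rw [h2, Set.countable_univ_iff] at h1
  exact Set.countable_coe_iff.1 h1

theorem meagre_sigma {Y : Type} [TopologicalSpace Y] : IsSigmaIdeal {A : Set Y | IsMeagre A} where
  empty := IsMeagre.empty
  mono := fun _ _ h hB => IsMeagre.mono h hB
  iUnion := fun _ hA => isMeagre_iUnion hA

theorem meagre_ccc {Y : Type} [TopologicalSpace Y] [SecondCountableTopology Y] [BaireSpace Y]
    [MeasurableSpace Y] [BorelSpace Y] : CountableChains {A : Set Y | IsMeagre A} := by
  classical
  intro 𝒜 h𝒜 hd
  have h1 : ∀ A : 𝒜, ∃ O : Set Y, IsOpen O ∧ (A : Set Y) =ᶠ[residual Y] O := fun A =>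
    (h𝒜 A A.2).1.residualEq_isOpen
  choose O hO hAO using h1
  have hM : ∀ A : 𝒜, IsMeagre {y | ¬ (y ∈ (A : Set Y) ↔ y ∈ O A)} := by
    intro A
    rw [IsMeagre]
    filter_upwards [hAO A] with p hp
    have : (p ∈ (A : Set Y)) = (p ∈ O A) := hp
    simp only [mem_compl_iff, mem_ofPred_eq, not_not]
    exact Iff.of_eq this
  have hne : ∀ A : 𝒜, (O A).Nonempty := by
    intro A
    by_contra hno
    rw [Set.not_nonempty_iff_eq_empty] at hno
    refine (h𝒜 A A.2).2 ((hM A).mono ?_)
    intro y hy
    simp only [mem_ofPred_eq, hno, mem_empty_iff_false, iff_false, not_not]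
    exact hy
  have hdis : Pairwise (fun A B : 𝒜 => Disjoint (O A) (O B)) := by
    intro A B hAB
    rw [Set.disjoint_iff_inter_eq_empty]
    by_contra hcon
    have hcon' : (O A ∩ O B).Nonempty := Set.nonempty_iff_ne_empty.2 hcon
    refine not_isMeagre_of_isOpen ((hO A).inter (hO B)) hcon' (((hM A).union (hM B)).mono ?_)
    rintro y ⟨hyA, hyB⟩
    by_contra hno
    simp only [mem_union, mem_ofPred_eq, not_or, not_not] at hno
    have h3 : Disjoint (A : Set Y) (B : Set Y) := hd A.2 B.2 (fun h => hAB (Subtype.ext h))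
    exact Set.disjoint_left.1 h3 (hno.1.2 hyA) (hno.2.2 hyB)
  exact Set.countable_coe_iff.1 (Pairwise.countable_of_isOpen_disjoint hdis hO hne)

/-- a meagre set is contained in a meagre Borel set -/
theorem meagre_borel {Y : Type} [TopologicalSpace Y] [BaireSpace Y] [MeasurableSpace Y] [BorelSpace Y]
    {N : Set Y} (hN : IsMeagre N) : ∃ M : Set Y, MeasurableSet M ∧ IsMeagre M ∧ N ⊆ M := by
  rw [IsMeagre, mem_residual] at hN
  obtain ⟨t, ht, hG, hd⟩ := hN
  refine ⟨tᶜ, hG.measurableSet.compl, ?_, ?_⟩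
  · rw [IsMeagre, compl_compl]
    exact residual_of_dense_Gδ hG hd
  · intro y hy hyt
    exact ht hyt hy

/-- Baire category quantifiers over Polish spaces -/
theorem BC.category {m : ℕ} {Y : Type} [TopologicalSpace Y] [PolishSpace Y] [MeasurableSpace Y]
    [BorelSpace Y] {X : Set ((Fin m → ℂ) × Y)} (hX : MeasurableSet X) {N : Set Y} (hN : IsMeagre N)
    (h : ∀ y ∉ N, CQ m {s | (s, y) ∈ X}) : BC m {s | ¬ IsMeagre {y | (s, y) ∈ X}} := by
  classical
  obtain ⟨M, hMm, hM, hNM⟩ := meagre_borel hN
  refine ⟨?_, (Pool.Agent.H507_U.meas_meagre hX).compl⟩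
  have hI : IsSigmaIdeal {A : Set Y | IsMeagre A} := meagre_sigma
  exact invariant_of_constant (constantOnCurves hI (meagre_ccc.fewFibres hI)) Prop m
    (fun s y => (s, y) ∈ X) (measurable_mem_prop hX) M hM hMm
    (fun y hy E _ => CQ_mem_prop (h y fun hyN => hy (hNM hyN)) E)
    (fun g => ¬ IsMeagre {y | g y}) (fun g k _ _ hgk => positive_invariant hI g k hgk)

/-- measure quantifiers over standard Borel spaces, for conditions on almost all `y` -/
theorem BC.measure {m : ℕ} {Y : Type} [MeasurableSpace Y] [StandardBorelSpace Y] (μ : Measure Y)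
    [SFinite μ] {X : Set ((Fin m → ℂ) × Y)} (hX : MeasurableSet X)
    (h : ∀ᵐ y ∂μ, CQ m {s | (s, y) ∈ X}) (r : ℝ≥0∞) : BC m {s | r < μ {y | (s, y) ∈ X}} := by
  classical
  have hmeas : MeasurableSet {s : Fin m → ℂ | r < μ {y | (s, y) ∈ X}} :=
    measurableSet_lt measurable_const (measurable_measure_prodMk_left hX)
  refine ⟨?_, hmeas⟩
  have hI : IsSigmaIdeal {A : Set Y | μ A = 0} := null_sigma μ
  have hN : μ {y | ¬ CQ m {s | (s, y) ∈ X}} = 0 := h
  refine invariant_of_constant (constantOnCurves hI ((null_ccc μ).fewFibres hI)) Prop m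
    (fun s y => (s, y) ∈ X) (measurable_mem_prop hX)
    (toMeasurable μ {y | ¬ CQ m {s | (s, y) ∈ X}}) (by
      show μ _ = 0
      rw [measure_toMeasurable]; exact hN) (measurableSet_toMeasurable _ _)
    (fun y hy E _ => CQ_mem_prop (by
      by_contra hno
      exact hy (subset_toMeasurable _ _ hno)) E)
    (fun g => r < μ {y | g y}) (fun g k _ _ hgk => ?_)
  have h1 : μ {y | g y} = μ {y | k y} := by
    refine measure_congr ?_
    have h2 : ∀ᵐ y ∂μ, g y = k y := hgk
    filter_upwards [h2] with y hy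
    exact hy
  rw [h1]

/-- the real part has uncountably many uncountable fibres -/
theorem not_few_countable : ¬ FewFibres {A : Set ℂ | A.Countable} := by
  intro h
  have h1 := h (fun y => (y.re : ℂ)) (Complex.measurable_ofReal.comp Complex.measurable_re)
  have h2 : Set.range ((↑) : ℝ → ℂ) ⊆ {t | (fun y : ℂ => (y.re : ℂ)) ⁻¹' {t} ∉ {A : Set ℂ | A.Countable}} := by
    rintro _ ⟨r, rfl⟩ hc
    have hc' : ((fun y : ℂ => (y.re : ℂ)) ⁻¹' {(r : ℂ)}).Countable := hc
    have h2 : (Set.range (fun x : ℝ => (⟨r, x⟩ : ℂ))).Countable := by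
      refine hc'.mono ?_
      rintro _ ⟨x, rfl⟩
      simp
    have h3 : (univ : Set ℝ).Countable := by
      rw [← image_univ] at h2
      refine Set.countable_of_injective_of_countable_image ?_ h2
      intro a _ b _ hab
      simpa using hab
    exact Cardinal.not_countable_real h3
  have h4 := h1.mono h2
  have h3 : (univ : Set ℝ).Countable := by
    rw [← image_univ] at h4
    exact Set.countable_of_injective_of_countable_image Complex.ofReal_injective.injOn h4
  exact Cardinal.not_countable_real h3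

end Pool.Agent.U195.CI
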