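import Pool.Agent.R158.MM.Int
import Pool.Agent.Helper105_Tree.Enum

set_option autoImplicit false

/-!
# Quantifiers given by ideals over parameter spaces

For which `σ`-ideals `I` of subsets of a standard Borel space `Y` do the quantifiers over `Y` which are
invariant modulo `I` preserve the sets with countable or cocountable traces on analytic curves?
-/

namespace Pool.Agent.U195.CI

open Set Function MeasureTheory Pool.Agent.TH735.QM Pool.Agent.Y566.GQ Pool.Agent.R158.MM
open scoped ENNReal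

/-- `I` is a `σ`-ideal of subsets of `Y`. -/
structure IsSigmaIdeal {Y : Type} (I : Set (Set Y)) : Prop where
  empty : ∅ ∈ I
  mono : ∀ A B : Set Y, A ⊆ B → B ∈ I → A ∈ I
  iUnion : ∀ A : ℕ → Set Y, (∀ n, A n ∈ I) → (⋃ n, A n) ∈ I

theorem IsSigmaIdeal.union {Y : Type} {I : Set (Set Y)} (h : IsSigmaIdeal I) {A B : Set Y}
    (hA : A ∈ I) (hB : B ∈ I) : A ∪ B ∈ I := by
  refine h.mono _ (⋃ n : ℕ, if n = 0 then A else B) ?_ (h.iUnion _ ?_)
  · rintro y (hy | hy)
    · exact mem_iUnion.2 ⟨0, by simpa using hy⟩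
    · exact mem_iUnion.2 ⟨1, by simpa using hy⟩
  · intro n
    by_cases hn : n = 0
    · simp only [hn, if_true]; exact hA
    · simp only [hn, if_false]; exact hB

/-- Every Borel function `h : Y → ℂ` has at most countably many fibres which are not in `I`. -/
def FewFibres {Y : Type} [MeasurableSpace Y] (I : Set (Set Y)) : Prop :=
  ∀ h : Y → ℂ, Measurable h → {t | h ⁻¹' {t} ∉ I}.Countable

/-- The countable chain condition: a family of pairwise disjoint measurable sets which are not in `I`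
is countable. -/
def CountableChains {Y : Type} [MeasurableSpace Y] (I : Set (Set Y)) : Prop :=
  ∀ 𝒜 : Set (Set Y), (∀ A ∈ 𝒜, MeasurableSet A ∧ A ∉ I) → 𝒜.PairwiseDisjoint id → 𝒜.Countable

theorem CountableChains.fewFibres {Y : Type} [MeasurableSpace Y] {I : Set (Set Y)}
    (hI : IsSigmaIdeal I) (hc : CountableChains I) : FewFibres I := by
  intro h hh
  have h1 : ((fun t : ℂ => h ⁻¹' {t}) '' {t : ℂ | h ⁻¹' {t} ∉ I}).Countable := by
    refine hc _ ?_ ?_
    · rintro _ ⟨t, ht, rfl⟩
      exact ⟨hh (measurableSet_singleton t), ht⟩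
    · rintro _ ⟨t, ht, rfl⟩ _ ⟨t', ht', rfl⟩ hne
      refine Set.disjoint_left.2 fun y hy hy' => hne ?_
      have h2 : h y = t := hy
      have h3 : h y = t' := hy'
      rw [← h2, ← h3]
  refine Set.countable_of_injective_of_countable_image ?_ h1
  intro t ht t' ht' hEq
  have hne : h ⁻¹' {t} ≠ ∅ := by
    intro he
    have ht1 : h ⁻¹' {t} ∉ I := ht
    rw [he] at ht1
    exact ht1 hI.empty
  obtain ⟨y, hy⟩ := Set.nonempty_iff_ne_empty.2 hne
  have hEq' : h ⁻¹' {t} = h ⁻¹' {t'} := hEq
  have hy' : y ∈ h ⁻¹' {t'} := by rw [← hEq']; exact hy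
  have h2 : h y = t := hy
  have h3 : h y = t' := hy'
  rw [← h2, ← h3]

/-- outside of a countable set the sections of a Borel set with countable horizontal sections are in the
ideal -/
theorem countable_sections {Y : Type} [MeasurableSpace Y] [StandardBorelSpace Y]
    {I : Set (Set Y)} (hI : IsSigmaIdeal I) (hfew : FewFibres I) {Z : Set (ℂ × Y)}
    (hZ : MeasurableSet Z) (hc : ∀ y, {t | (t, y) ∈ Z}.Countable) :
    {t | {y | (t, y) ∈ Z} ∉ I}.Countable := by
  classical
  have hR : MeasurableSet {p : Y × ℂ | (p.2, p.1) ∈ Z} :=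
    (measurable_snd.prodMk measurable_fst) hZ
  obtain ⟨g, D, hg, -, hgD, -⟩ := Pool.Agent.Helper105.enum (0 : ℂ) hR hc
  refine (countable_iUnion fun n => hfew (g n) (hg n)).mono ?_
  intro t ht
  by_contra hno
  apply ht
  refine hI.mono _ (⋃ n, g n ⁻¹' {t}) ?_ (hI.iUnion _ ?_)
  · intro y hy
    obtain ⟨n, -, hn⟩ := (hgD y t).1 hy
    exact mem_iUnion.2 ⟨n, hn⟩
  · intro n
    by_contra hcon
    exact hno (mem_iUnion.2 ⟨n, hcon⟩)

/-- On a curve: there is a Borel set with countable horizontal sections which contains all points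
`(t, y)` at which `f t y` is not the generic value. -/
theorem exceptional {U : Set ℂ} (hU : IsOpen U) (hne : ¬ U.Countable) {Y W : Type}
    [MeasurableSpace Y] [MeasurableSpace W] [MeasurableSpace.CountablySeparated W]
    {f : ℂ → Y → W} (hf : Measurable (fun p : ℂ × Y => f p.1 p.2)) {N : Set Y}
    (hN : MeasurableSet N)
    (h : ∀ y ∉ N, ∀ E : Set W, MeasurableSet E → QmOn U {t | f t y ∈ E}) :
    ∃ Z : Set (ℂ × Y), MeasurableSet Z ∧ (∀ y, {t | (t, y) ∈ Z}.Countable) ∧
      ∀ t ∈ U, ∀ t' ∈ U, ∀ y ∉ N, (t, y) ∉ Z → (t', y) ∉ Z → f t y = f t' y := by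
  classical
  obtain ⟨e, he1, he2⟩ : ∃ e : ℕ → Set W, (∀ n, MeasurableSet (e n)) ∧
      ∀ x y : W, (∀ n, x ∈ e n ↔ y ∈ e n) → x = y := by
    obtain ⟨S, hSc, hSm, hS⟩ := (MeasurableSpace.CountablySeparated.countably_separated
      (α := W)).exists_countable_separating
    by_cases hS0 : S.Nonempty
    · obtain ⟨e, he⟩ := hSc.exists_eq_range hS0
      refine ⟨e, fun n => hSm _ (he ▸ mem_range_self n), fun x y hxy => ?_⟩
      refine hS x (mem_univ _) y (mem_univ _) ?_
      intro s hs
      rw [he] at hs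
      obtain ⟨n, rfl⟩ := hs
      exact hxy n
    · refine ⟨fun _ => ∅, fun _ => MeasurableSet.empty, fun x y _ => ?_⟩
      refine hS x (mem_univ _) y (mem_univ _) ?_
      intro s hs
      exact absurd ⟨s, hs⟩ hS0
  obtain ⟨ν, hfin, hνU, hν0, hνc⟩ := exists_atomless hU.measurableSet hne
  set E : ℕ → Set (ℂ × Y) := fun n => {p | f p.1 p.2 ∈ e n} with hE
  have hEm : ∀ n, MeasurableSet (E n) := fun n => hf (he1 n)
  set A : ℕ → Set Y := fun n => {y | ν {t | (t, y) ∈ E n} ≠ 0} with hA
  have hAm : ∀ n, MeasurableSet (A n) := by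
    intro n
    have h1 : Measurable fun y => ν ((fun x => (x, y)) ⁻¹' (E n)) :=
      measurable_measure_prodMk_right (hEm n)
    have h2 : MeasurableSet {y | ν ((fun x => (x, y)) ⁻¹' (E n)) = 0} :=
      h1 (measurableSet_singleton 0)
    exact h2.compl
  refine ⟨⋃ n, {p | p.1 ∈ U ∧ p.2 ∉ N ∧ ¬ (p ∈ E n ↔ p.2 ∈ A n)}, ?_, ?_, ?_⟩
  · refine MeasurableSet.iUnion fun n => ?_
    have h1 : MeasurableSet {p : ℂ × Y | p.1 ∈ U} := measurable_fst hU.measurableSet
    have h2 : MeasurableSet {p : ℂ × Y | p.2 ∉ N} := measurable_snd hN.compl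
    have h3 : MeasurableSet {p : ℂ × Y | p.2 ∈ A n} := measurable_snd (hAm n)
    have h4 : {p : ℂ × Y | p.1 ∈ U ∧ p.2 ∉ N ∧ ¬ (p ∈ E n ↔ p.2 ∈ A n)} =
        {p : ℂ × Y | p.1 ∈ U} ∩ ({p : ℂ × Y | p.2 ∉ N} ∩
          ((E n \ {p : ℂ × Y | p.2 ∈ A n}) ∪ ({p : ℂ × Y | p.2 ∈ A n} \ E n))) := by
      ext p
      simp only [mem_ofPred_eq, mem_inter_iff, mem_union, mem_sdiff]
      tauto
    rw [h4]
    exact h1.inter (h2.inter (((hEm n).diff h3).union (h3.diff (hEm n))))
  · intro y
    by_cases hy : y ∈ N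
    · refine Set.countable_empty.mono ?_
      intro t ht
      obtain ⟨n, hn⟩ := mem_iUnion.1 ht
      exact absurd hy hn.2.1
    · have e1 : {t | (t, y) ∈ ⋃ n, {p : ℂ × Y | p.1 ∈ U ∧ p.2 ∉ N ∧ ¬ (p ∈ E n ↔ p.2 ∈ A n)}} ⊆
          ⋃ n, {t | t ∈ U ∧ ¬ ((t, y) ∈ E n ↔ y ∈ A n)} := by
        intro t ht
        obtain ⟨n, hn⟩ := mem_iUnion.1 ht
        exact mem_iUnion.2 ⟨n, hn.1, hn.2.2⟩
      refine (countable_iUnion fun n => ?_).mono e1
      rcases h y hy (e n) (he1 n) with hq | hq
      · have hA0 : y ∉ A n := by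
          intro hyA
          apply hyA
          have h5 : {t | (t, y) ∈ E n} ⊆ (U ∩ {t | f t y ∈ e n}) ∪ Uᶜ := by
            intro t ht
            by_cases htU : t ∈ U
            · exact Or.inl ⟨htU, ht⟩
            · exact Or.inr htU
          refine measure_mono_null h5 (measure_union_null (hνc _ hq) hνU)
        refine hq.mono ?_
        rintro t ⟨htU, ht⟩
        refine ⟨htU, ?_⟩
        by_contra hno
        apply ht
        constructor
        · intro h6; exact absurd h6 hno
        · intro h6; exact absurd h6 hA0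
      · have hA1 : y ∈ A n := by
          intro h0
          apply hν0
          have h5 : (univ : Set ℂ) ⊆ {t | (t, y) ∈ E n} ∪ ((U \ {t | f t y ∈ e n}) ∪ Uᶜ) := by
            intro t _
            by_cases htU : t ∈ U
            · by_cases h6 : f t y ∈ e n
              · exact Or.inl h6
              · exact Or.inr (Or.inl ⟨htU, h6⟩)
            · exact Or.inr (Or.inr htU)
          exact measure_mono_null h5
            (measure_union_null h0 (measure_union_null (hνc _ hq) hνU))
        refine hq.mono ?_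
        rintro t ⟨htU, ht⟩
        refine ⟨htU, ?_⟩
        intro h6
        exact ht ⟨fun _ => hA1, fun _ => h6⟩
  · intro t ht t' ht' y hy h1 h2
    refine he2 _ _ fun n => ?_
    have h3 : (t, y) ∈ E n ↔ y ∈ A n := by
      by_contra hno
      exact h1 (mem_iUnion.2 ⟨n, ht, hy, hno⟩)
    have h4 : (t', y) ∈ E n ↔ y ∈ A n := by
      by_contra hno
      exact h2 (mem_iUnion.2 ⟨n, ht', hy, hno⟩)
    exact h3.trans h4.symm

/-- On every analytic curve `γ` the functions `f (γ t)` are equal modulo `I` for all `t` outside of a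
countable set, for every Borel function `f (s, y)` such that the sets `{s | f s y ∈ E}` have countable
or cocountable traces on analytic curves, for all `y` outside of a Borel set in `I`. -/
def ConstantOnCurves {Y : Type} [MeasurableSpace Y] (I : Set (Set Y)) : Prop :=
  ∀ (W : Type) [MeasurableSpace W] [MeasurableSpace.CountablySeparated W] (m : ℕ)
    (f : (Fin m → ℂ) → Y → W), Measurable (fun p : (Fin m → ℂ) × Y => f p.1 p.2) →
    ∀ N ∈ I, MeasurableSet N →
    (∀ y ∉ N, ∀ E : Set W, MeasurableSet E → CQ m {s | f s y ∈ E}) →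
    ∀ U : Set ℂ, IsOpen U → IsPreconnected U → ∀ γ : ℂ → (Fin m → ℂ), AnalyticOnNhd ℂ γ U →
    ∃ B : Set ℂ, B.Countable ∧ ∀ t ∈ U, t ∉ B → ∀ t' ∈ U, t' ∉ B →
      {y | f (γ t) y ≠ f (γ t') y} ∈ I

/-- All quantifiers `Φ (f s)` which are invariant modulo `I` preserve the countable or cocountable
traces on analytic curves. -/
def InvariantQuantifiers {Y : Type} [MeasurableSpace Y] (I : Set (Set Y)) : Prop :=
  ∀ (W : Type) [MeasurableSpace W] [MeasurableSpace.CountablySeparated W] (m : ℕ)
    (f : (Fin m → ℂ) → Y → W), Measurable (fun p : (Fin m → ℂ) × Y => f p.1 p.2) →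
    ∀ N ∈ I, MeasurableSet N →
    (∀ y ∉ N, ∀ E : Set W, MeasurableSet E → CQ m {s | f s y ∈ E}) →
    ∀ Φ : (Y → W) → Prop,
    (∀ g h : Y → W, Measurable g → Measurable h → {y | g y ≠ h y} ∈ I → (Φ g ↔ Φ h)) →
    CQ m {s | Φ (f s)}

/-- The quantifier 'for `I`-positively many `y`' gives countable or cocountable sets, if for every `y`
there is at most one `t` with `(t, y) ∈ X`. -/
def UniqueQuantifier {Y : Type} [MeasurableSpace Y] (I : Set (Set Y)) : Prop :=
  ∀ X : Set (ℂ × Y), MeasurableSet X → (∀ y t t', (t, y) ∈ X → (t', y) ∈ X → t = t') →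
    {t : ℂ | {y | (t, y) ∈ X} ∉ I}.Countable ∨ {t : ℂ | {y | (t, y) ∈ X} ∉ I}ᶜ.Countable

theorem constantOnCurves {Y : Type} [MeasurableSpace Y] [StandardBorelSpace Y] {I : Set (Set Y)}
    (hI : IsSigmaIdeal I) (hfew : FewFibres I) : ConstantOnCurves I := by
  classical
  intro W _ _ m f hf N hNI hN h U hU hUc γ hγ
  by_cases hne : U.Countable
  · exact ⟨U, hne, fun t ht htB => absurd ht htB⟩
  have hγm : Measurable (U.piecewise γ (fun _ => 0)) :=
    hγ.continuousOn.measurable_piecewise continuousOn_const hU.measurableSet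
  set γ' := U.piecewise γ (fun _ => 0) with hγ'
  have heq : ∀ t ∈ U, γ' t = γ t := fun t ht => Set.piecewise_eq_of_mem _ _ _ ht
  obtain ⟨Z, hZ, hZc, hZe⟩ := exceptional (f := fun t y => f (γ' t) y) hU hne
    (hf.comp ((hγm.comp measurable_fst).prodMk measurable_snd)) hN (by
      intro y hy E hE
      refine QmOn.congr' (h y hy E hE U hU hUc γ hγ) ?_
      intro t ht
      simp only [mem_preimage, mem_ofPred_eq, heq t ht])
  refine ⟨_, countable_sections hI hfew hZ hZc, ?_⟩
  intro t ht htB t' ht' htB'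
  have h1 : {y | (t, y) ∈ Z} ∈ I := not_not.1 htB
  have h2 : {y | (t', y) ∈ Z} ∈ I := not_not.1 htB'
  refine hI.mono _ _ ?_ (hI.union hNI (hI.union h1 h2))
  intro y hy
  by_contra hno
  simp only [mem_union, mem_ofPred_eq, not_or] at hno
  apply hy
  have h3 := hZe t ht t' ht' y hno.1 hno.2.1 hno.2.2
  simp only [heq t ht, heq t' ht'] at h3
  exact h3

theorem invariant_of_constant {Y : Type} [MeasurableSpace Y] {I : Set (Set Y)}
    (h : ConstantOnCurves I) : InvariantQuantifiers I := by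
  intro W _ _ m f hf N hNI hN hq Φ hΦ U hU hUc γ hγ
  obtain ⟨B, hB, hBt⟩ := h W m f hf N hNI hN hq U hU hUc γ hγ
  have hfm : ∀ s, Measurable (f s) := fun s => hf.comp (measurable_const.prodMk measurable_id)
  refine QmOn.of_const hB ?_
  intro t ht htB t' ht' htB' hts
  exact (hΦ _ _ (hfm _) (hfm _) (hBt t ht htB t' ht' htB')).1 hts

/-- countable sets are in the family -/
theorem CQ_countable {C : Set ℂ} (hC : C.Countable) : CQ 1 {s : Fin 1 → ℂ | s 0 ∈ C} := by
  have e : {s : Fin 1 → ℂ | s 0 ∈ C} = ⋃ c : C, {s : Fin 1 → ℂ | s 0 - (c : ℂ) = 0} := by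
    ext s
    simp only [mem_ofPred_eq, mem_iUnion, sub_eq_zero]
    constructor
    · intro h; exact ⟨⟨s 0, h⟩, rfl⟩
    · rintro ⟨c, hc⟩; rw [hc]; exact c.2
  rw [e]
  have : Countable C := hC.to_subtype
  refine CQ.iUnion fun c => CQ.zero ?_
  exact (analytic_proj (0 : Fin 1)).sub analyticOnNhd_const

theorem CQ_mem_prop {m : ℕ} {S : Set (Fin m → ℂ)} (h : CQ m S) (E : Set Prop) :
    CQ m {s | (s ∈ S) ∈ E} := by
  intro U hU hUc γ hγ
  have hT : ∀ t : ℂ, γ t ∈ S → (γ t ∈ S) = True := fun t ht => eq_true ht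
  have hF : ∀ t : ℂ, γ t ∉ S → (γ t ∈ S) = False := fun t ht => eq_false ht
  by_cases h1 : True ∈ E
  · by_cases h2 : False ∈ E
    · refine Or.inr (Set.countable_empty.mono ?_)
      rintro t ⟨-, ht⟩
      apply ht
      show (γ t ∈ S) ∈ E
      by_cases hp : γ t ∈ S
      · rw [hT t hp]; exact h1
      · rw [hF t hp]; exact h2
    · refine QmOn.congr' (h U hU hUc γ hγ) ?_
      intro t _
      show γ t ∈ S ↔ (γ t ∈ S) ∈ E
      by_cases hp : γ t ∈ S
      · rw [hT t hp]; simp [h1]
      · rw [hF t hp]; simp [h2]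
  · by_cases h2 : False ∈ E
    · refine QmOn.congr' (h.compl U hU hUc γ hγ) ?_
      intro t _
      show γ t ∉ S ↔ (γ t ∈ S) ∈ E
      by_cases hp : γ t ∈ S
      · rw [hT t hp]; simp [h1]
      · rw [hF t hp]; simp [h2]
    · refine Or.inl (Set.countable_empty.mono ?_)
      rintro t ⟨-, ht⟩
      have ht' : (γ t ∈ S) ∈ E := ht
      by_cases hp : γ t ∈ S
      · rw [hT t hp] at ht'; exact absurd ht' h1
      · rw [hF t hp] at ht'; exact absurd ht' h2

theorem measurable_mem_prop {α : Type} [MeasurableSpace α] {X : Set α} (hX : MeasurableSet X) :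
    Measurable (fun a => a ∈ X) := by
  refine measurable_to_prop ?_
  have e : (fun a => a ∈ X) ⁻¹' {True} = X := by
    ext p; simp
  rw [e]; exact hX

/-- the quantifier 'not in `I`' is invariant modulo `I` -/
theorem positive_invariant {Y : Type} {I : Set (Set Y)} (hI : IsSigmaIdeal I) (g k : Y → Prop)
    (hgk : {y | g y ≠ k y} ∈ I) : ({y | g y} ∉ I ↔ {y | k y} ∉ I) := by
  have hmono : ∀ g k : Y → Prop, {y | g y ≠ k y} ∈ I → {y | k y} ∈ I → {y | g y} ∈ I := by
    intro g k hgk hk
    refine hI.mono _ _ ?_ (hI.union hgk hk)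
    intro y hy
    by_cases hk' : k y
    · exact Or.inr hk'
    · refine Or.inl fun he => hk' ?_
      rw [← he]; exact hy
  have hkg : {y | k y ≠ g y} ∈ I := hI.mono _ _ (fun y hy => Ne.symm hy) hgk
  exact ⟨fun h1 h2 => h1 (hmono g k hgk h2), fun h1 h2 => h1 (hmono k g hkg h2)⟩

theorem unique_of_invariant {Y : Type} [MeasurableSpace Y] {I : Set (Set Y)} (hI : IsSigmaIdeal I)
    (h : InvariantQuantifiers I) : UniqueQuantifier I := by
  intro X hX hu
  have hXm : MeasurableSet {p : (Fin 1 → ℂ) × Y | (p.1 0, p.2) ∈ X} :=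
    (((measurable_pi_apply 0).comp measurable_fst).prodMk measurable_snd) hX
  have key := h Prop 1 (fun s y => (s 0, y) ∈ X) (measurable_mem_prop hXm) ∅ hI.empty
    MeasurableSet.empty (by
      intro y _ E _
      have h1 : CQ 1 {s : Fin 1 → ℂ | s 0 ∈ {t | (t, y) ∈ X}} := by
        refine CQ_countable (Set.Subsingleton.countable ?_)
        intro t ht t' ht'
        exact hu y t t' ht ht'
      exact CQ_mem_prop h1 E) (fun g => {y | g y} ∉ I)
    (fun g k _ _ hgk => positive_invariant hI g k hgk)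
  exact key.qm

theorem uncountable_halfplanes : ¬ {z : ℂ | z.re < 0}.Countable ∧ ¬ {z : ℂ | 0 ≤ z.re}.Countable := by
  constructor
  · intro hc
    have h1 : (Iio (0 : ℝ)).Countable := by
      refine Set.countable_of_injective_of_countable_image (f := ((↑) : ℝ → ℂ))
        Complex.ofReal_injective.injOn (hc.mono ?_)
      rintro _ ⟨r, hr, rfl⟩
      exact hr
    rw [← Cardinal.le_aleph0_iff_set_countable, Cardinal.mk_Iio_real] at h1
    exact absurd h1 (not_le.2 Cardinal.aleph0_lt_continuum)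
  · intro hc
    have h1 : (Ici (0 : ℝ)).Countable := by
      refine Set.countable_of_injective_of_countable_image (f := ((↑) : ℝ → ℂ))
        Complex.ofReal_injective.injOn (hc.mono ?_)
      rintro _ ⟨r, hr, rfl⟩
      exact hr
    rw [← Cardinal.le_aleph0_iff_set_countable, Cardinal.mk_Ici_real] at h1
    exact absurd h1 (not_le.2 Cardinal.aleph0_lt_continuum)

theorem few_of_unique {Y : Type} [MeasurableSpace Y] {I : Set (Set Y)} (hI : IsSigmaIdeal I)
    (h : UniqueQuantifier I) : FewFibres I := by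
  intro g hg
  by_contra hu
  -- one of the two half planes contains uncountably many values with positive fibres
  obtain ⟨Q, hQ, hQu, hQc⟩ : ∃ Q : Set ℂ, MeasurableSet Q ∧ ¬ ({t | g ⁻¹' {t} ∉ I} ∩ Q).Countable ∧
      ¬ Qᶜ.Countable := by
    by_cases h1 : ({t | g ⁻¹' {t} ∉ I} ∩ {z : ℂ | z.re < 0}).Countable
    · refine ⟨{z : ℂ | 0 ≤ z.re}, measurableSet_le measurable_const Complex.measurable_re, ?_, ?_⟩
      · intro h2
        refine hu ((h1.union h2).mono ?_)
        intro t ht
        rcases lt_or_ge t.re 0 with h3 | h3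
        · exact Or.inl ⟨ht, h3⟩
        · exact Or.inr ⟨ht, h3⟩
      · intro h2
        refine uncountable_halfplanes.1 (h2.mono ?_)
        intro z hz
        exact not_le.2 (show z.re < 0 from hz)
    · refine ⟨{z : ℂ | z.re < 0}, measurableSet_lt Complex.measurable_re measurable_const, h1, ?_⟩
      intro h2
      refine uncountable_halfplanes.2 (h2.mono ?_)
      intro z hz
      exact not_lt.2 (show 0 ≤ z.re from hz)
  have e : {t : ℂ | {y | (t, y) ∈ {p : ℂ × Y | g p.2 = p.1 ∧ p.1 ∈ Q}} ∉ I} =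
      {t | g ⁻¹' {t} ∉ I} ∩ Q := by
    ext t
    simp only [mem_ofPred_eq, mem_inter_iff]
    by_cases ht : t ∈ Q
    · have : {y | g y = t ∧ t ∈ Q} = g ⁻¹' {t} := by
        ext y; simp [ht]
      rw [this]; simp [ht]
    · have : {y | g y = t ∧ t ∈ Q} = ∅ := by
        ext y; simp [ht]
      rw [this]; simp [ht, hI.empty]
  have h1 := h {p : ℂ × Y | g p.2 = p.1 ∧ p.1 ∈ Q}
    ((measurableSet_eq_fun (hg.comp measurable_snd) measurable_fst).inter (measurable_fst hQ))
    (by
      rintro y t t' ⟨h1, -⟩ ⟨h2, -⟩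
      simp only at h1 h2
      rw [← h1, ← h2])
  rw [e] at h1
  rcases h1 with h1 | h1
  · exact hQu h1
  · refine hQc (h1.mono ?_)
    intro t ht ht'
    exact ht ht'.2

/-- **Characterization of the `σ`-ideals whose quantifiers preserve the countable or cocountable
traces.** -/
theorem characterization {Y : Type} [MeasurableSpace Y] [StandardBorelSpace Y] {I : Set (Set Y)}
    (hI : IsSigmaIdeal I) :
    List.TFAE [FewFibres I, ConstantOnCurves I, InvariantQuantifiers I, UniqueQuantifier I] := by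
  tfae_have 1 → 2 := constantOnCurves hI
  tfae_have 2 → 3 := invariant_of_constant
  tfae_have 3 → 4 := unique_of_invariant hI
  tfae_have 4 → 1 := few_of_unique hI
  tfae_finish

end Pool.Agent.U195.CI
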